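import Pool.Agent.H162R2.AG.All

/-!
# List edge colourings: few edges at the vertices of large degree

A common generalisation of `Sparse.main_edge`, `T_S`, `T_D` and `T_A`.
-/

set_option autoImplicit false

namespace Pool.Agent.H892.LEC

open Finset Pool.Agent.H162R2.Sparse Pool.Agent.H162R2.AG

section
variable {V : Type} [Fintype V] [DecidableEq V]

/-- density of the graph of the edges meeting `T` -/
theorem dens_meet (G : SimpleGraph V) (T : Finset V) (a : ℝ)
    (h1 : ∀ X : Finset V, X ⊆ T →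
      (((pr G).filter (fun e => e.1 ∈ X ∧ e.2 ∈ X)).card : ℝ) ≤ a * X.card)
    (h2 : ∀ v ∉ T, (((nb G v).filter (fun w => w ∈ T)).card : ℝ) ≤ a / 2) :
    Dens (A_meetX G T) a := by
  classical
  intro X
  have hsub : (pr (A_meetX G T)).filter (fun e => e.1 ∈ X ∧ e.2 ∈ X) ⊆
      (pr G).filter (fun e => e.1 ∈ X ∩ T ∧ e.2 ∈ X ∩ T) ∪
      (((X \ T).sigma fun v => (nb G v).filter (fun w => w ∈ T)).image (fun p => (p.1, p.2)) ∪
       ((X \ T).sigma fun v => (nb G v).filter (fun w => w ∈ T)).image (fun p => (p.2, p.1))) := by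
    rintro ⟨x, y⟩ he
    rw [mem_filter, mem_pr, A_meetX_adj] at he
    obtain ⟨⟨hxy, hT⟩, hx, hy⟩ := he
    by_cases hxT : x ∈ T
    · by_cases hyT : y ∈ T
      · apply mem_union_left
        rw [mem_filter, mem_pr]
        exact ⟨hxy, mem_inter.2 ⟨hx, hxT⟩, mem_inter.2 ⟨hy, hyT⟩⟩
      · apply mem_union_right
        apply mem_union_right
        rw [mem_image]
        exact ⟨⟨y, x⟩, by
          rw [mem_sigma]
          exact ⟨mem_sdiff.2 ⟨hy, hyT⟩, mem_filter.2 ⟨(mem_nb G y x).2 hxy.symm, hxT⟩⟩, rfl⟩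
    · have hyT : y ∈ T := hT.resolve_left hxT
      apply mem_union_right
      apply mem_union_left
      rw [mem_image]
      exact ⟨⟨x, y⟩, by
        rw [mem_sigma]
        exact ⟨mem_sdiff.2 ⟨hx, hxT⟩, mem_filter.2 ⟨(mem_nb G x y).2 hxy, hyT⟩⟩, rfl⟩
  have hc : ∀ g : (_ : V) × V → V × V,
      ((((X \ T).sigma fun v => (nb G v).filter (fun w => w ∈ T)).image g).card : ℝ) ≤
        a / 2 * (X \ T).card := by
    intro g
    have e1 : (((X \ T).sigma fun v => (nb G v).filter (fun w => w ∈ T)).image g).card ≤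
        ∑ v ∈ X \ T, ((nb G v).filter (fun w => w ∈ T)).card := by
      refine card_image_le.trans ?_
      rw [card_sigma]
    have e2 : ((∑ v ∈ X \ T, ((nb G v).filter (fun w => w ∈ T)).card : ℕ) : ℝ) ≤
        a / 2 * (X \ T).card := by
      push_cast
      calc ∑ v ∈ X \ T, (((nb G v).filter (fun w => w ∈ T)).card : ℝ) ≤ ∑ v ∈ X \ T, a / 2 :=
            sum_le_sum fun v hv => h2 v (mem_sdiff.1 hv).2
        _ = a / 2 * (X \ T).card := by rw [sum_const, nsmul_eq_mul]; ring
    exact le_trans (by exact_mod_cast e1) e2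
  have e1 := card_le_card hsub
  have e2 := card_union_le ((pr G).filter (fun e => e.1 ∈ X ∩ T ∧ e.2 ∈ X ∩ T))
    (((X \ T).sigma fun v => (nb G v).filter (fun w => w ∈ T)).image (fun p => (p.1, p.2)) ∪
       ((X \ T).sigma fun v => (nb G v).filter (fun w => w ∈ T)).image (fun p => (p.2, p.1)))
  have e3 := card_union_le
    (((X \ T).sigma fun v => (nb G v).filter (fun w => w ∈ T)).image (fun p => (p.1, p.2)))
    (((X \ T).sigma fun v => (nb G v).filter (fun w => w ∈ T)).image (fun p => (p.2, p.1)))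
  have e4 := h1 (X ∩ T) inter_subset_right
  have e5 := hc (fun p => (p.1, p.2))
  have e6 := hc (fun p => (p.2, p.1))
  have e7 : ((X ∩ T).card : ℝ) + (X \ T).card = X.card := by
    have := card_inter_add_card_sdiff X T
    exact_mod_cast this
  have e8 : (((pr (A_meetX G T)).filter (fun e => e.1 ∈ X ∧ e.2 ∈ X)).card : ℝ) ≤
      (((pr G).filter (fun e => e.1 ∈ X ∩ T ∧ e.2 ∈ X ∩ T)).card : ℝ) +
      (((((X \ T).sigma fun v => (nb G v).filter (fun w => w ∈ T)).image
          (fun p => (p.1, p.2))).card : ℝ) +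
       ((((X \ T).sigma fun v => (nb G v).filter (fun w => w ∈ T)).image
          (fun p => (p.2, p.1))).card : ℝ)) := by
    exact_mod_cast e1.trans (e2.trans (Nat.add_le_add_left e3 _))
  rw [← e7]
  linarith

/-- the general combination -/
theorem comb_main (G : SimpleGraph V) (T : Finset V) (D : ℕ) (a s : ℝ)
    (ha : 34 * a * (1 + Real.log D) ≤ D) (hdeg : ∀ v, dg G v ≤ D)
    (h1 : ∀ X : Finset V, X ⊆ T →
      (((pr G).filter (fun e => e.1 ∈ X ∧ e.2 ∈ X)).card : ℝ) ≤ a * X.card)
    (h2 : ∀ v ∉ T, (((nb G v).filter (fun w => w ∈ T)).card : ℝ) ≤ a / 2)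
    (h3 : ∀ v ∉ T, (((nb G v).filter (fun w => w ∉ T)).card : ℝ) ≤ D - a - s)
    (hcol : ∀ (H : SimpleGraph V) (d : ℕ), d ≤ D → (∀ v, dg H v ≤ d) →
      ∀ L : V → V → Finset ℕ, (∀ x y, L x y = L y x) →
      (∀ x y, H.Adj x y → (d : ℝ) + s ≤ (L x y).card) → LC H L)
    (L : V → V → Finset ℕ) (hsym : ∀ x y, L x y = L y x)
    (hL : ∀ x y, G.Adj x y → D ≤ (L x y).card) : LC G L := by
  classical
  obtain ⟨f₁, k1, k2, k3⟩ := main_edge D a ha L hsym (pr (A_meetX G T)).card (A_meetX G T) rfl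
    (fun v => (dg_mono (G := G) (H := A_meetX G T)
      (fun x y hxy => ((A_meetX_adj G T x y).1 hxy).1) v).trans (hdeg v)) (dens_meet G T a h1 h2)
    (fun u v huv => hL u v huv.1)
  refine A_comb G T L f₁ k1 k2 k3 ?_
  by_cases hE : ∃ x y, (cutX G T).Adj x y
  · obtain ⟨x0, y0, hxy0⟩ := hE
    haveI : Nonempty V := ⟨x0⟩
    obtain ⟨v0, hv0⟩ := Finite.exists_max (fun v : V => dg (cutX G T) v)
    have hpos : 0 < dg (cutX G T) v0 := by
      refine lt_of_lt_of_le ?_ (hv0 x0)
      unfold dg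
      exact card_pos.2 ⟨y0, (mem_nb _ _ _).2 hxy0⟩
    have hv0T : v0 ∉ T := by
      unfold dg at hpos
      obtain ⟨w, hw⟩ := card_pos.1 hpos
      rw [mem_nb, cutX_adj] at hw
      exact hw.2.1
    have hd1 : dg (cutX G T) v0 ≤ ((nb G v0).filter (fun w => w ∉ T)).card := by
      unfold dg
      apply card_le_card
      intro w hw
      rw [mem_nb, cutX_adj] at hw
      exact mem_filter.2 ⟨(mem_nb _ _ _).2 hw.1, hw.2.2⟩
    have hd2 : (dg (cutX G T) v0 : ℝ) ≤ D - a - s := by
      have := h3 v0 hv0T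
      have h4 : (dg (cutX G T) v0 : ℝ) ≤ ((nb G v0).filter (fun w => w ∉ T)).card := by
        exact_mod_cast hd1
      linarith
    refine hcol (cutX G T) (dg (cutX G T) v0) ?_ hv0 _ ?_ ?_
    · exact (dg_mono (fun x y hxy => ((cutX_adj G T x y).1 hxy).1) v0).trans (hdeg v0)
    · intro x y
      rw [hsym x y, union_comm]
    · intro x y hxy
      obtain ⟨hG, hxT, hyT⟩ := (cutX_adj G T x y).1 hxy
      have h4 : (D : ℝ) ≤ (L x y).card := by exact_mod_cast hL x y hG
      have h5 : (L x y).card ≤ (L x y \ (((nb G x).filter (fun w => w ∈ T)).image (f₁ x) ∪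
          ((nb G y).filter (fun w => w ∈ T)).image (f₁ y))).card +
          (((nb G x).filter (fun w => w ∈ T)).card + ((nb G y).filter (fun w => w ∈ T)).card) := by
        have e1 := le_card_sdiff (((nb G x).filter (fun w => w ∈ T)).image (f₁ x) ∪
          ((nb G y).filter (fun w => w ∈ T)).image (f₁ y)) (L x y)
        have e2 := card_union_le (((nb G x).filter (fun w => w ∈ T)).image (f₁ x))
          (((nb G y).filter (fun w => w ∈ T)).image (f₁ y))
        have e3 := card_image_le (s := (nb G x).filter (fun w => w ∈ T)) (f := f₁ x)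
        have e4 := card_image_le (s := (nb G y).filter (fun w => w ∈ T)) (f := f₁ y)
        omega
      have h6 : ((L x y).card : ℝ) ≤ ((L x y \ (((nb G x).filter (fun w => w ∈ T)).image (f₁ x) ∪
          ((nb G y).filter (fun w => w ∈ T)).image (f₁ y))).card : ℝ) +
          ((((nb G x).filter (fun w => w ∈ T)).card : ℝ) +
            (((nb G y).filter (fun w => w ∈ T)).card : ℝ)) := by exact_mod_cast h5
      have h8 := h2 x hxT
      have h9 := h2 y hyT
      linarith
  · push Not at hE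
    exact ⟨fun _ _ => 0, fun x y h => absurd h (hE x y), fun x y h => absurd h (hE x y),
      fun x y z h => absurd h (hE x y)⟩

end

/-! ### transfer from `Fin n` -/

section
variable {V W : Type} [Fintype V] [DecidableEq V] [Fintype W] [DecidableEq W]

theorem LC_equiv (e : V ≃ W) (H : SimpleGraph V) (L : V → V → Finset ℕ)
    (h : LC (H.comap e.symm) (fun x y => L (e.symm x) (e.symm y))) : LC H L := by
  obtain ⟨f, h1, h2, h3⟩ := h
  refine ⟨fun x y => f (e x) (e y), ?_, ?_, ?_⟩
  · intro x y hxy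
    apply h1
    simpa using hxy
  · intro x y hxy
    have := h2 (e x) (e y) (by simpa using hxy)
    simpa using this
  · intro x y z hxy hxz hyz
    apply h3
    · simpa using hxy
    · simpa using hxz
    · exact fun h => hyz (e.injective h)

theorem dg_comap (e : V ≃ W) (H : SimpleGraph V) (w : W) :
    dg (H.comap e.symm) w = dg H (e.symm w) := by
  unfold dg
  refine card_bij (fun x _ => e.symm x) ?_ ?_ ?_
  · intro x hx
    rw [mem_nb] at hx ⊢
    exact hx
  · intro x _ y _ h
    exact e.symm.injective h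
  · intro y hy
    refine ⟨e y, ?_, by simp⟩
    rw [mem_nb] at hy ⊢
    simpa using hy

end

/-- the simple bound, for all vertex sets -/
theorem col_S : ∃ K : ℝ, 1 ≤ K ∧ ∀ (V : Type) [Fintype V] [DecidableEq V] (H : SimpleGraph V)
    (d : ℕ), (∀ v, dg H v ≤ d) → ∀ L : V → V → Finset ℕ, (∀ x y, L x y = L y x) →
    (∀ x y, H.Adj x y → (d : ℝ) + (K * Real.sqrt (d * Real.log (Fintype.card V)) +
      K * Real.log (Fintype.card V)) ≤ (L x y).card) → LC H L := by
  obtain ⟨K, hK, hS⟩ := tS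
  refine ⟨K, hK, ?_⟩
  intro V _ _ H d hd L hsym hL
  by_cases hn : 2 ≤ Fintype.card V
  · apply LC_equiv (Fintype.equivFin V)
    refine hS (Fintype.card V) hn d (H.comap (Fintype.equivFin V).symm) ?_ _ ?_
      (fun _ _ => False) (fun _ _ h => h) ?_ ?_ ?_
    · intro v
      rw [dg_comap]
      exact hd _
    · intro x y
      exact hsym _ _
    · intro v
      simp [cnt]
    · intro x y hxy _
      exact hL _ _ hxy
    · intro x y _ h
      exact h.elim
  · refine ⟨fun _ _ => 0, ?_, ?_, ?_⟩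
    all_goals
      intro x y
    · exact fun _ => rfl
    · intro h
      exfalso
      apply hn
      have := Fintype.one_lt_card_iff.2 ⟨x, y, h.ne⟩
      omega
    · intro z h
      exfalso
      apply hn
      have := Fintype.one_lt_card_iff.2 ⟨x, y, h.ne⟩
      omega

/-- the bound for large graphs, for all vertex sets -/
theorem col_D : ∀ ε : ℝ, 0 < ε → ∃ n₀ : ℕ, ∀ (V : Type) [Fintype V] [DecidableEq V]
    (H : SimpleGraph V) (d : ℕ), n₀ ≤ Fintype.card V → (∀ v, dg H v ≤ d) →
    ∀ L : V → V → Finset ℕ, (∀ x y, L x y = L y x) →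
    (∀ x y, H.Adj x y → (d : ℝ) + ε * Real.sqrt (Fintype.card V * Real.log (Fintype.card V)) ≤
      (L x y).card) → LC H L := by
  intro ε hε
  obtain ⟨n₀, h⟩ := tD ε hε
  refine ⟨n₀, ?_⟩
  intro V _ _ H d hn hd L hsym hL
  apply LC_equiv (Fintype.equivFin V)
  refine h (Fintype.card V) hn d (H.comap (Fintype.equivFin V).symm) ?_ _ ?_ ?_
  · intro v
    rw [dg_comap]
    exact hd _
  · intro x y
    exact hsym _ _
  · intro x y hxy
    exact hL _ _ hxy

/-- **Main theorem.** -/
theorem main : ∃ K : ℝ, ∀ ε : ℝ, 0 < ε → ∃ n₀ : ℕ, ∀ (V : Type) [Fintype V] (G : SimpleGraph V)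
    (D : ℕ) (T : Finset V) (a s : ℝ),
    (K * (Real.sqrt (D * Real.log (Fintype.card V)) + Real.log (Fintype.card V)) ≤ s ∨
      n₀ ≤ Fintype.card V ∧ ε * Real.sqrt (Fintype.card V * Real.log (Fintype.card V)) ≤ s) →
    34 * a * (1 + Real.log D) ≤ D →
    (∀ v, (G.neighborSet v).ncard ≤ D) →
    (∀ X : Finset V, X ⊆ T →
      ({e : V × V | e.1 ∈ X ∧ e.2 ∈ X ∧ G.Adj e.1 e.2}.ncard : ℝ) ≤ a * X.card) →
    (∀ v ∉ T, ({w : V | w ∈ T ∧ G.Adj v w}.ncard : ℝ) ≤ a / 2) →
    (∀ v ∉ T, ({w : V | w ∉ T ∧ G.Adj v w}.ncard : ℝ) ≤ D - a - s) →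
    (∀ L : G.edgeSet → Finset ℕ, (∀ e, D ≤ (L e).card) →
      ∃ f : G.edgeSet → ℕ, (∀ e, f e ∈ L e) ∧
        ∀ e e', G.lineGraph.Adj e e' → f e ≠ f e') ∧
    (∀ v, (G.neighborSet v).ncard = D → ∀ k : ℕ, G.lineGraph.Colorable k ↔
      ∀ L : G.edgeSet → Finset ℕ, (∀ e, k ≤ (L e).card) →
        ∃ f : G.edgeSet → ℕ, (∀ e, f e ∈ L e) ∧
          ∀ e e', G.lineGraph.Adj e e' → f e ≠ f e') := by
  classical
  obtain ⟨K, hK, hS⟩ := col_S
  refine ⟨K, fun ε hε => ?_⟩
  obtain ⟨n₀, hD⟩ := col_D ε hε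
  refine ⟨n₀, ?_⟩
  intro V _ G D T a s hs ha hdeg h1 h2 h3
  have hch : Pool.Agent.H921R2.LEC.Choosable G D := by
    apply choosable_of_LC G D
    intro L hsym hL
    refine comb_main G T D a s ha (fun v => ?_) ?_ ?_ ?_ ?_ L hsym hL
    · rw [dg_eq_ncard]
      exact hdeg v
    · intro X hX
      refine le_trans (le_of_eq ?_) (h1 X hX)
      rw [← Set.ncard_coe_finset]
      congr 2
      ext e
      simp [mem_pr, and_comm, and_assoc, and_left_comm]
    · intro v hv
      refine le_trans (le_of_eq ?_) (h2 v hv)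
      rw [← Set.ncard_coe_finset]
      congr 2
      ext w
      simp [mem_nb, and_comm]
    · intro v hv
      refine le_trans (le_of_eq ?_) (h3 v hv)
      rw [← Set.ncard_coe_finset]
      congr 2
      ext w
      simp [mem_nb, and_comm]
    · intro H d hdD hd L hsym hL
      rcases hs with hs | ⟨hn, hs⟩
      · refine hS V H d hd L hsym (fun x y hxy => le_trans ?_ (hL x y hxy))
        have h4 : Real.sqrt (d * Real.log (Fintype.card V)) ≤
            Real.sqrt (D * Real.log (Fintype.card V)) := by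
          apply Real.sqrt_le_sqrt
          have h5 : (0 : ℝ) ≤ Real.log (Fintype.card V) := Real.log_natCast_nonneg _
          have h6 : (d : ℝ) ≤ D := by exact_mod_cast hdD
          exact mul_le_mul_of_nonneg_right h6 h5
        have h7 : K * Real.sqrt (d * Real.log (Fintype.card V)) ≤
            K * Real.sqrt (D * Real.log (Fintype.card V)) :=
          mul_le_mul_of_nonneg_left h4 (by linarith)
        linarith
      · exact hD V H d hn hd L hsym (fun x y hxy => le_trans (by linarith) (hL x y hxy))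
  refine ⟨hch, fun v hv k => ?_⟩
  exact Pool.Agent.H162R2.LEC.listEdge_of_embed G D hch G id Function.injective_id
    (fun _ _ h => h) v hv.ge k

end Pool.Agent.H892.LEC
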