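import Pool.Agent.H162R2.AG.AP
import Pool.Agent.H892.LEC.Few

/-!
# (p,1)-total labellings: few edges at the vertices of large degree

Adaptation of `Pool.Agent.H162R2.AG.AP`.
-/

set_option autoImplicit false

namespace Pool.Agent.H892.LEC

open Finset Pool.Agent.H162R2.Sparse Pool.Agent.H162R2.AG

section
variable {V : Type} [Fintype V] [DecidableEq V]

/-- extending the vertex labels from `T` to all vertices -/
theorem labels (p : ℕ) (hp : 1 ≤ p) (G : SimpleGraph V) (T : Finset V)
    (M : V → Finset ℕ) (f0 : V → V → ℕ) (g0 : V → ℕ)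
    (hdeg : ∀ v, v ∉ T →
      dg G v + ((nb G v).filter (fun w => w ∈ T)).card * (2 * p - 1) < (M v).card)
    (hg1 : ∀ a, g0 a ∈ M a) (hg2 : ∀ a b, a ∈ T → b ∈ T → G.Adj a b → g0 a ≠ g0 b) :
    ∀ S : Finset V, ∃ g : V → ℕ, (∀ a ∈ T, g a = g0 a) ∧ (∀ a, g a ∈ M a) ∧
      (∀ a b, a ∈ T ∪ S → b ∈ T ∪ S → G.Adj a b → g a ≠ g b) ∧
      ∀ a b, a ∉ T → a ∈ S → b ∈ T → G.Adj a b → Far p (g a) (f0 a b) := by
  intro S
  induction S using Finset.induction_on with
  | empty =>
    refine ⟨g0, fun a _ => rfl, hg1, ?_, ?_⟩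
    · intro a b ha hb hab
      rw [Finset.union_empty] at ha hb
      exact hg2 a b ha hb hab
    · intro a b _ ha
      exact absurd ha (Finset.notMem_empty a)
  | insert v S hv ih =>
    obtain ⟨g, h1, h2, h3, h4⟩ := ih
    by_cases hvT : v ∈ T
    · refine ⟨g, h1, h2, ?_, ?_⟩
      · have hTS : T ∪ insert v S = T ∪ S := by
          ext x
          simp only [Finset.mem_union, Finset.mem_insert]
          constructor
          · rintro (h | rfl | h)
            · exact Or.inl h
            · exact Or.inl hvT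
            · exact Or.inr h
          · rintro (h | h)
            · exact Or.inl h
            · exact Or.inr (Or.inr h)
        rw [hTS]
        exact h3
      · intro a b haT ha hb hab
        rcases Finset.mem_insert.1 ha with rfl | ha
        · exact absurd hvT haT
        · exact h4 a b haT ha hb hab
    · obtain ⟨m, hm1, hm2⟩ : ∃ m ∈ M v, m ∉ (nb G v).image g ∪
          ((nb G v).filter (fun w => w ∈ T)).biUnion (fun b => blk p (f0 v b)) := by
        apply Finset.exists_mem_notMem_of_card_lt_card
        have k1 := Finset.card_union_le ((nb G v).image g)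
          (((nb G v).filter (fun w => w ∈ T)).biUnion (fun b => blk p (f0 v b)))
        have k2 := Finset.card_image_le (s := nb G v) (f := g)
        have k3 := card_biUnion_blk p hp ((nb G v).filter (fun w => w ∈ T)) (f0 v)
        have k5 := hdeg v hvT
        unfold dg at k5
        omega
      rw [Finset.mem_union, not_or] at hm2
      have hm3 : ∀ b, G.Adj v b → g b ≠ m := by
        intro b hb h
        apply hm2.1
        rw [← h]
        exact Finset.mem_image_of_mem _ ((mem_nb G v b).2 hb)
      have hm4 : ∀ b, b ∈ T → G.Adj v b → Far p m (f0 v b) := by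
        intro b hbT hb
        apply far_of_notMem
        intro h
        apply hm2.2
        rw [Finset.mem_biUnion]
        exact ⟨b, Finset.mem_filter.2 ⟨(mem_nb G v b).2 hb, hbT⟩, h⟩
      refine ⟨fun a => if a = v then m else g a, ?_, ?_, ?_, ?_⟩
      · intro a ha
        have hav : a ≠ v := fun h => hvT (h ▸ ha)
        simp only [if_neg hav]
        exact h1 a ha
      · intro a
        by_cases ha : a = v
        · simp only [if_pos ha]
          rw [ha]
          exact hm1
        · simp only [if_neg ha]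
          exact h2 a
      · intro a b ha hb hab
        by_cases hav : a = v
        · have hbv : b ≠ v := by
            rintro rfl
            exact hab.ne hav
          simp only [if_pos hav, if_neg hbv]
          rw [hav] at hab
          exact (hm3 b hab).symm
        · by_cases hbv : b = v
          · simp only [if_neg hav, if_pos hbv]
            rw [hbv] at hab
            exact hm3 a hab.symm
          · simp only [if_neg hav, if_neg hbv]
            apply h3 a b _ _ hab
            · rcases Finset.mem_union.1 ha with h | h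
              · exact Finset.mem_union_left _ h
              · exact Finset.mem_union_right _ (Finset.mem_of_mem_insert_of_ne h hav)
            · rcases Finset.mem_union.1 hb with h | h
              · exact Finset.mem_union_left _ h
              · exact Finset.mem_union_right _ (Finset.mem_of_mem_insert_of_ne h hbv)
      · intro a b haT ha hb hab
        by_cases hav : a = v
        · simp only [if_pos hav]
          rw [hav] at hab ⊢
          exact hm4 b hb hab
        · simp only [if_neg hav]
          exact h4 a b haT (Finset.mem_of_mem_insert_of_ne ha hav) hb hab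

/-- the combinatorial part -/
theorem combP (p : ℕ) (hp : 1 ≤ p) (G : SimpleGraph V) (T : Finset V)
    (L : V → V → Finset ℕ) (M : V → Finset ℕ) (hsym : ∀ a b, L a b = L b a)
    (hdeg : ∀ v, v ∉ T →
      dg G v + ((nb G v).filter (fun w => w ∈ T)).card * (2 * p - 1) < (M v).card)
    (h0 : LP p (A_meetX G T) L M)
    (hfin : ∀ L' : V → V → Finset ℕ, (∀ a b, L' a b = L' b a) →
      (∀ a b, (cutX G T).Adj a b → (L a b).card + 2 ≤ (L' a b).card +
        (((nb G a).filter (fun w => w ∈ T)).card + ((nb G b).filter (fun w => w ∈ T)).card) +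
          4 * p) →
      LC (cutX G T) L') : LP p G L M := by
  classical
  obtain ⟨f0, g0, hf1, hf2, hf3, hg1, hg2, hg3⟩ := h0
  obtain ⟨g, k1, k2, k3, k4⟩ := labels p hp G T M f0 g0 hdeg hg1 (fun a b ha _ hab =>
    hg2 a b ⟨hab, Or.inl ha⟩) Finset.univ
  let W : V → Finset ℕ := fun a =>
    blk p (g a) ∪ ((nb G a).filter (fun w => w ∈ T)).image (f0 a)
  have hW : ∀ a, (W a).card + 1 ≤ ((nb G a).filter (fun w => w ∈ T)).card + 2 * p := by
    intro a
    have j1 := Finset.card_union_le (blk p (g a)) (((nb G a).filter (fun w => w ∈ T)).image (f0 a))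
    have j2 := Finset.card_image_le (s := (nb G a).filter (fun w => w ∈ T)) (f := f0 a)
    have j4 := card_blk p hp (g a)
    simp only [W]
    omega
  obtain ⟨f1, e1, e2, e3⟩ := hfin (fun a b => L a b \ (W a ∪ W b)) (by
    intro a b
    rw [hsym a b, Finset.union_comm]) (by
    intro a b _
    have j1 := Finset.le_card_sdiff (W a ∪ W b) (L a b)
    have j2 := Finset.card_union_le (W a) (W b)
    have j3 := hW a
    have j4 := hW b
    omega)
  have hcut : ∀ a b, G.Adj a b → ¬ (a ∈ T ∨ b ∈ T) → (cutX G T).Adj a b := by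
    intro a b hab h
    rw [not_or] at h
    exact (cutX_adj G T a b).2 ⟨hab, h.1, h.2⟩
  have hGT : ∀ a b, G.Adj a b → (a ∈ T ∨ b ∈ T) → (A_meetX G T).Adj a b := fun a b hab h =>
    ⟨hab, h⟩
  have hmix : ∀ a b c, G.Adj a b → G.Adj a c → (a ∈ T ∨ b ∈ T) → ¬ (a ∈ T ∨ c ∈ T) →
      f0 a b ≠ f1 a c := by
    intro a b c hab hac h h' heq
    have hbT : b ∈ T := by tauto
    have j1 := e2 a c (hcut a c hac h')
    simp only [Finset.mem_sdiff, Finset.mem_union, not_or] at j1
    have j2 := j1.2.1
    simp only [W] at j2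
    apply j2
    rw [← heq]
    exact Finset.mem_union_right _ (Finset.mem_image_of_mem _
      (Finset.mem_filter.2 ⟨(mem_nb G a b).2 hab, hbT⟩))
  refine ⟨fun a b => if a ∈ T ∨ b ∈ T then f0 a b else f1 a b, g, ?_, ?_, ?_, k2, ?_, ?_⟩
  · intro a b hab
    by_cases h : a ∈ T ∨ b ∈ T
    · simp only [if_pos h, if_pos h.symm]
      exact hf1 a b (hGT a b hab h)
    · have h' : ¬ (b ∈ T ∨ a ∈ T) := fun h' => h h'.symm
      simp only [if_neg h, if_neg h']
      exact e1 a b (hcut a b hab h)
  · intro a b hab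
    by_cases h : a ∈ T ∨ b ∈ T
    · simp only [if_pos h]
      exact hf2 a b (hGT a b hab h)
    · simp only [if_neg h]
      exact (Finset.mem_sdiff.1 (e2 a b (hcut a b hab h))).1
  · intro a b c hab hac hbc
    by_cases h : a ∈ T ∨ b ∈ T
    · by_cases h' : a ∈ T ∨ c ∈ T
      · simp only [if_pos h, if_pos h']
        exact hf3 a b c (hGT a b hab h) (hGT a c hac h') hbc
      · simp only [if_pos h, if_neg h']
        exact hmix a b c hab hac h h'
    · by_cases h' : a ∈ T ∨ c ∈ T
      · simp only [if_neg h, if_pos h']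
        exact (hmix a c b hac hab h' h).symm
      · simp only [if_neg h, if_neg h']
        exact e3 a b c (hcut a b hab h) (hcut a c hac h') hbc
  · intro a b hab
    exact k3 a b (Finset.mem_union_right _ (Finset.mem_univ _))
      (Finset.mem_union_right _ (Finset.mem_univ _)) hab
  · intro a b hab
    by_cases haT : a ∈ T
    · have h : a ∈ T ∨ b ∈ T := Or.inl haT
      simp only [if_pos h]
      rw [k1 a haT]
      exact hg3 a b (hGT a b hab h)
    · by_cases hbT : b ∈ T
      · have h : a ∈ T ∨ b ∈ T := Or.inr hbT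
        simp only [if_pos h]
        exact k4 a b haT (Finset.mem_univ _) hbT hab
      · have h : ¬ (a ∈ T ∨ b ∈ T) := by tauto
        simp only [if_neg h]
        have j1 := e2 a b (hcut a b hab h)
        simp only [Finset.mem_sdiff, Finset.mem_union, not_or] at j1
        have j2 := j1.2.1
        simp only [W] at j2
        apply Far.symm
        apply far_of_notMem
        intro hc
        exact j2 (Finset.mem_union_left _ hc)

/-- the general combination -/
theorem comb_mainP (p : ℕ) (hp : 1 ≤ p) (G : SimpleGraph V) (T : Finset V) (D : ℕ) (a s : ℝ)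
    (hs : 0 ≤ s) (ha : 34 * a * (1 + Real.log D) ≤ D) (hap : 4 * p * a ≤ D)
    (hdeg : ∀ v, dg G v ≤ D)
    (h1 : ∀ X : Finset V, X ⊆ T →
      (((pr G).filter (fun e => e.1 ∈ X ∧ e.2 ∈ X)).card : ℝ) ≤ a * X.card)
    (h2 : ∀ v ∉ T, (((nb G v).filter (fun w => w ∈ T)).card : ℝ) ≤ a / 2)
    (h3 : ∀ v ∉ T, (((nb G v).filter (fun w => w ∉ T)).card : ℝ) ≤ D - p * a - 2 * p - s)
    (hcol : ∀ (H : SimpleGraph V) (d : ℕ), d ≤ D → (∀ v, dg H v ≤ d) →
      ∀ L : V → V → Finset ℕ, (∀ x y, L x y = L y x) →
      (∀ x y, H.Adj x y → (d : ℝ) + s ≤ (L x y).card) → LC H L)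
    (L : V → V → Finset ℕ) (M : V → Finset ℕ) (hsym : ∀ x y, L x y = L y x)
    (hL : ∀ x y, G.Adj x y → D + 2 * p ≤ (L x y).card + 1)
    (hM : ∀ v, D + 2 * p ≤ (M v).card + 1) : LP p G L M := by
  classical
  have hp1 : (1 : ℝ) ≤ p := by exact_mod_cast hp
  have h0 : LP p (A_meetX G T) L M := by
    refine main_p p hp D a ha hap L M hsym hM _ (A_meetX G T) rfl ?_ (dens_meet G T a h1 h2) ?_
    · intro v
      exact (dg_mono (G := G) (H := A_meetX G T)
        (fun x y hxy => ((A_meetX_adj G T x y).1 hxy).1) v).trans (hdeg v)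
    · intro u v huv
      exact hL u v huv.1
  refine combP p hp G T L M hsym ?_ h0 ?_
  · intro v hv
    have k0 := h2 v hv
    have k1 := h3 v hv
    have k2 : ((D : ℝ) + 2 * p) ≤ (M v).card + 1 := by exact_mod_cast hM v
    have k3 : ((2 * p - 1 : ℕ) : ℝ) = 2 * p - 1 := by
      rw [Nat.cast_sub (by omega)]
      push_cast
      ring
    have k4 : dg G v = ((nb G v).filter (fun w => w ∈ T)).card +
        ((nb G v).filter (fun w => w ∉ T)).card := by
      unfold dg
      exact (card_filter_add_card_filter_not (s := nb G v) (fun w => w ∈ T)).symm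
    have k5 : ((dg G v + ((nb G v).filter (fun w => w ∈ T)).card * (2 * p - 1) : ℕ) : ℝ) <
        (M v).card := by
      rw [k4]
      push_cast [k3]
      have k6 : (((nb G v).filter (fun w => w ∈ T)).card : ℝ) * (2 * p) ≤ a / 2 * (2 * p) :=
        mul_le_mul_of_nonneg_right k0 (by linarith)
      nlinarith
    exact_mod_cast k5
  · intro L' hsym' hL'
    by_cases hE : ∃ x y, (cutX G T).Adj x y
    · obtain ⟨x0, y0, hxy0⟩ := hE
      haveI : Nonempty V := ⟨x0⟩
      obtain ⟨v0, hv0⟩ := Finite.exists_max (fun v : V => dg (cutX G T) v)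
      have hpos : 0 < dg (cutX G T) v0 := by
        refine lt_of_lt_of_le ?_ (hv0 x0)
        unfold dg
        exact card_pos.2 ⟨y0, (mem_nb _ _ _).2 hxy0⟩
      have hv0T : v0 ∉ T := by
        unfold dg at hpos
        obtain ⟨w, hw⟩ := card_pos.1 hpos
        rw [mem_nb, cutX_adj] at hw
        exact hw.2.1
      have hd1 : dg (cutX G T) v0 ≤ ((nb G v0).filter (fun w => w ∉ T)).card := by
        unfold dg
        apply card_le_card
        intro w hw
        rw [mem_nb, cutX_adj] at hw
        exact mem_filter.2 ⟨(mem_nb _ _ _).2 hw.1, hw.2.2⟩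
      have hd2 : (dg (cutX G T) v0 : ℝ) ≤ D - p * a - 2 * p - s := by
        have := h3 v0 hv0T
        have h4 : (dg (cutX G T) v0 : ℝ) ≤ ((nb G v0).filter (fun w => w ∉ T)).card := by
          exact_mod_cast hd1
        linarith
      refine hcol (cutX G T) (dg (cutX G T) v0) ?_ hv0 L' hsym' ?_
      · exact (dg_mono (fun x y hxy => ((cutX_adj G T x y).1 hxy).1) v0).trans (hdeg v0)
      · intro x y hxy
        obtain ⟨hG, hxT, hyT⟩ := (cutX_adj G T x y).1 hxy
        have k1 : ((L x y).card : ℝ) + 2 ≤ (L' x y).card +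
            ((((nb G x).filter (fun w => w ∈ T)).card : ℝ) +
              (((nb G y).filter (fun w => w ∈ T)).card : ℝ)) + 4 * p := by
          exact_mod_cast hL' x y hxy
        have k2 : (D : ℝ) + 2 * p ≤ (L x y).card + 1 := by exact_mod_cast hL x y hG
        have k3 := h2 x hxT
        have k4 := h2 y hyT
        have k5 : (0 : ℝ) ≤ (((nb G x).filter (fun w => w ∈ T)).card : ℝ) := by positivity
        have k6 : a ≤ p * a := by nlinarith
        linarith
    · push Not at hE
      exact ⟨fun _ _ => 0, fun x y h => absurd h (hE x y), fun x y h => absurd h (hE x y),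
        fun x y z h => absurd h (hE x y)⟩

end

/-- **Main theorem for (p,1)-total labellings.** -/
theorem mainP : ∃ K : ℝ, ∀ ε : ℝ, 0 < ε → ∃ n₀ : ℕ, ∀ (p : ℕ), 1 ≤ p → ∀ (V : Type) [Fintype V]
    (G : SimpleGraph V) (D : ℕ) (T : Finset V) (a s : ℝ),
    (K * (Real.sqrt (D * Real.log (Fintype.card V)) + Real.log (Fintype.card V)) ≤ s ∨
      n₀ ≤ Fintype.card V ∧ ε * Real.sqrt (Fintype.card V * Real.log (Fintype.card V)) ≤ s) →
    34 * a * (1 + Real.log D) ≤ D → 4 * p * a ≤ D →
    (∀ v, (G.neighborSet v).ncard ≤ D) →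
    (∀ X : Finset V, X ⊆ T →
      ({e : V × V | e.1 ∈ X ∧ e.2 ∈ X ∧ G.Adj e.1 e.2}.ncard : ℝ) ≤ a * X.card) →
    (∀ v ∉ T, ({w : V | w ∈ T ∧ G.Adj v w}.ncard : ℝ) ≤ a / 2) →
    (∀ v ∉ T, ({w : V | w ∉ T ∧ G.Adj v w}.ncard : ℝ) ≤ D - p * a - 2 * p - s) →
    ∀ (M : V → Finset ℕ) (L : Sym2 V → Finset ℕ), (∀ v, D + 2 * p - 1 ≤ (M v).card) →
      (∀ e ∈ G.edgeSet, D + 2 * p - 1 ≤ (L e).card) →
      ∃ (fV : V → ℕ) (fE : Sym2 V → ℕ),
        (∀ v : V, fV v ∈ M v) ∧
        (∀ e ∈ G.edgeSet, fE e ∈ L e) ∧
        (∀ u v : V, G.Adj u v → fV u ≠ fV v) ∧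
        (∀ u v : V, G.Adj u v → (p : ℤ) ≤ |(fV u : ℤ) - (fE s(u, v) : ℤ)|) ∧
        (∀ u v w : V, G.Adj u v → G.Adj u w → v ≠ w → fE s(u, v) ≠ fE s(u, w)) := by
  classical
  obtain ⟨K, hK, hS⟩ := col_S
  refine ⟨K, fun ε hε => ?_⟩
  obtain ⟨n₀, hD⟩ := col_D ε hε
  refine ⟨n₀, ?_⟩
  intro p hp V _ G D T a s hs ha hap hdeg h1 h2 h3 M L hM hL
  have hlog : (0 : ℝ) ≤ Real.log (Fintype.card V) := Real.log_natCast_nonneg _
  have hs0 : 0 ≤ s := by
    rcases hs with hs | ⟨-, hs⟩
    · exact le_trans (by positivity) hs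
    · exact le_trans (by positivity) hs
  have hLP : LP p G (fun x y => L s(x, y)) M := by
    refine comb_mainP p hp G T D a s hs0 ha hap (fun v => ?_) ?_ ?_ ?_ ?_ _ M ?_ ?_ ?_
    · rw [dg_eq_ncard]
      exact hdeg v
    · intro X hX
      refine le_trans (le_of_eq ?_) (h1 X hX)
      rw [← Set.ncard_coe_finset]
      congr 2
      ext e
      simp [mem_pr, and_comm, and_assoc, and_left_comm]
    · intro v hv
      refine le_trans (le_of_eq ?_) (h2 v hv)
      rw [← Set.ncard_coe_finset]
      congr 2
      ext w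
      simp [mem_nb, and_comm]
    · intro v hv
      refine le_trans (le_of_eq ?_) (h3 v hv)
      rw [← Set.ncard_coe_finset]
      congr 2
      ext w
      simp [mem_nb, and_comm]
    · intro H d hdD hd L hsym hL
      rcases hs with hs | ⟨hn, hs⟩
      · refine hS V H d hd L hsym (fun x y hxy => le_trans ?_ (hL x y hxy))
        have h4 : Real.sqrt (d * Real.log (Fintype.card V)) ≤
            Real.sqrt (D * Real.log (Fintype.card V)) := by
          apply Real.sqrt_le_sqrt
          have h6 : (d : ℝ) ≤ D := by exact_mod_cast hdD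
          exact mul_le_mul_of_nonneg_right h6 hlog
        have h7 : K * Real.sqrt (d * Real.log (Fintype.card V)) ≤
            K * Real.sqrt (D * Real.log (Fintype.card V)) :=
          mul_le_mul_of_nonneg_left h4 (by linarith)
        linarith
      · exact hD V H d hn hd L hsym (fun x y hxy => le_trans (by linarith) (hL x y hxy))
    · intro x y
      rw [Sym2.eq_swap]
    · intro x y hxy
      have := hL s(x, y) hxy
      omega
    · intro v
      have := hM v
      omega
  obtain ⟨f, g, e1, e2, e3, e4, e5, e6⟩ := hLP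
  have hsymf : ∀ x y : V, (if G.Adj x y then f x y else 0) = (if G.Adj y x then f y x else 0) := by
    intro x y
    by_cases h : G.Adj x y
    · rw [if_pos h, if_pos h.symm, e1 x y h]
    · rw [if_neg h, if_neg (fun h' => h h'.symm)]
  refine ⟨g, Sym2.lift ⟨fun x y => if G.Adj x y then f x y else 0, hsymf⟩, e4, ?_, e5, ?_, ?_⟩
  · intro e he
    induction e using Sym2.ind with
    | _ x y =>
      have hxy : G.Adj x y := he
      simp only [Sym2.lift_mk]
      rw [if_pos hxy]
      exact e2 x y hxy
  · intro u v huv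
    simp only [Sym2.lift_mk]
    rw [if_pos huv]
    have := e6 u v huv
    unfold Far at this
    rw [le_abs]
    rcases this with h | h
    · right
      omega
    · left
      omega
  · intro u v w huv huw hvw
    simp only [Sym2.lift_mk]
    rw [if_pos huv, if_pos huw]
    exact e3 u v w huv huw hvw

end Pool.Agent.H892.LEC
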